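import Pool.Agent.H29.SX.Targets

set_option autoImplicit false
set_option linter.unusedVariables false

namespace Pool.Agent.H13.SX

open NumberField Height Finset Polynomial Pool.Agent.H24.RD Pool.Agent.H23.RDD Pool.Agent.H29.RQ
  Pool.Agent.H29.SX

theorem Lv_le_KK (F Ω : Type) [Field F] [Field Ω] [Algebra F Ω] {r : ℕ} (γ : Fin r → F) (N : ℕ)
    (hN : 0 < N) : Lv F Ω γ N 1 ≤ KK F Ω := by
  unfold Lv
  rw [IntermediateField.adjoin_le_iff]
  rintro z (hz | ⟨i, hz⟩)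
  · exact IntermediateField.subset_adjoin _ _ ⟨N, hN, hz⟩
  · rw [pow_one] at hz
    rw [hz]
    exact (KK F Ω).algebraMap_mem _

theorem Lv_mono (F Ω : Type) [Field F] [Field Ω] [Algebra F Ω] {r : ℕ} (γ : Fin r → F)
    (N M : ℕ) (h : N ∣ M) : Lv F Ω γ N 1 ≤ Lv F Ω γ M 1 := by
  unfold Lv
  rw [IntermediateField.adjoin_le_iff]
  rintro z (hz | ⟨i, hz⟩)
  · refine IntermediateField.subset_adjoin _ _ (Or.inl ?_)
    obtain ⟨c, rfl⟩ := h
    rw [pow_mul, hz, one_pow]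
  · exact IntermediateField.subset_adjoin _ _ (Or.inr ⟨i, hz⟩)

theorem mem_KK (F Ω : Type) [Field F] [Field Ω] [Algebra F Ω] {r : ℕ} (γ : Fin r → F) (x : Ω)
    (hx : x ∈ KK F Ω) : ∃ n : ℕ, 0 < n ∧ x ∈ Lv F Ω γ n 1 := by
  unfold KK at hx
  induction hx using IntermediateField.adjoin_induction with
  | mem x hx =>
    obtain ⟨n, hn, hx⟩ := hx
    exact ⟨n, hn, IntermediateField.subset_adjoin _ _ (Or.inl hx)⟩
  | algebraMap x => exact ⟨1, one_pos, (Lv F Ω γ 1 1).algebraMap_mem x⟩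
  | add x y _ _ hx hy =>
    obtain ⟨n, hn, hx⟩ := hx
    obtain ⟨m, hm, hy⟩ := hy
    exact ⟨n * m, Nat.mul_pos hn hm, add_mem (Lv_mono F Ω γ n (n * m) (Dvd.intro _ rfl) hx)
      (Lv_mono F Ω γ m (n * m) (Dvd.intro_left _ rfl) hy)⟩
  | inv x _ hx =>
    obtain ⟨n, hn, hx⟩ := hx
    exact ⟨n, hn, inv_mem hx⟩
  | mul x y _ _ hx hy =>
    obtain ⟨n, hn, hx⟩ := hx
    obtain ⟨m, hm, hy⟩ := hy
    exact ⟨n * m, Nat.mul_pos hn hm, mul_mem (Lv_mono F Ω γ n (n * m) (Dvd.intro _ rfl) hx)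
      (Lv_mono F Ω γ m (n * m) (Dvd.intro_left _ rfl) hy)⟩

theorem pf_EXM (h1 : T_LVB) (h2 : T_FT) : T_EXM := by
  classical
  intro F Ω _ _ _ _ _ _ _ r γ hγ N D β g hN hβ hC hR hg hmin
  have hLK : Lv F Ω γ N 1 ≤ KK F Ω := Lv_le_KK F Ω γ N hN
  obtain ⟨s, hs, hsC⟩ := hC
  set X : Finset Ω := s.filter fun x => ∃ σ : Ω ≃ₐ[F] Ω, (∀ z ∈ KK F Ω, σ z = z) ∧ σ β = x
    with hX
  have hXm : ∀ σ : Ω ≃ₐ[F] Ω, (∀ z ∈ KK F Ω, σ z = z) → σ β ∈ X := by
    intro σ hσ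
    rw [hX, Finset.mem_filter]
    exact ⟨hsC σ fun z hz => hσ z (hLK hz), σ, hσ, rfl⟩
  have hXs : ∀ x ∈ X, ∃ σ : Ω ≃ₐ[F] Ω, (∀ z ∈ KK F Ω, σ z = z) ∧ σ β = x := by
    intro x hx
    rw [hX, Finset.mem_filter] at hx
    exact hx.2
  have hβX : β ∈ X := by
    have h := hXm AlgEquiv.refl (fun z _ => rfl)
    simpa using h
  -- the polynomial of the orbit
  set P : Polynomial Ω := ∏ x ∈ X, (Polynomial.X - C x) with hP
  have hPσ : ∀ σ : Ω ≃ₐ[F] Ω, (∀ z ∈ KK F Ω, σ z = z) →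
      P.map (σ : Ω →+* Ω) = P := by
    intro σ hσ
    have himg : X.image σ = X := by
      refine Finset.eq_of_subset_of_card_le ?_ ?_
      · intro w hw
        obtain ⟨y, hy, rfl⟩ := Finset.mem_image.mp hw
        obtain ⟨τ, hτ, rfl⟩ := hXs y hy
        exact hXm (τ.trans σ) fun z hz => by
          rw [AlgEquiv.trans_apply, hτ z hz, hσ z hz]
      · rw [Finset.card_image_of_injective _ σ.injective]
    rw [hP, Polynomial.map_prod]
    conv_rhs => rw [← himg]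
    rw [Finset.prod_image fun y _ y' _ h => σ.injective h]
    refine Finset.prod_congr rfl fun x _ => ?_
    rw [Polynomial.map_sub, Polynomial.map_X, Polynomial.map_C]
    rfl
  have : IsAlgClosure F Ω := ⟨inferInstance, inferInstance⟩
  have : IsGalois F Ω := inferInstance
  have hcoef : ∀ i, P.coeff i ∈ KK F Ω := by
    intro i
    rw [← InfiniteGalois.fixedField_fixingSubgroup (KK F Ω), IntermediateField.mem_fixedField_iff]
    intro σ hσ
    have hσ' : ∀ z ∈ KK F Ω, σ z = z := by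
      intro z hz
      exact (IntermediateField.mem_fixingSubgroup_iff _ _).1 hσ z hz
    have h3 := congrArg (fun Q : Polynomial Ω => Q.coeff i) (hPσ σ hσ')
    simp only [Polynomial.coeff_map] at h3
    exact h3
  choose n hn hcn using fun i => mem_KK F Ω γ (P.coeff i) (hcoef i)
  set N₁ : ℕ := N * ∏ i ∈ Finset.range (P.natDegree + 1), n i with hN₁
  have hN₁0 : 0 < N₁ := Nat.mul_pos hN (Finset.prod_pos fun i _ => hn i)
  have hLL : Lv F Ω γ N 1 ≤ Lv F Ω γ N₁ 1 := Lv_mono F Ω γ N N₁ (Dvd.intro _ rfl)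
  have hcL : ∀ i, P.coeff i ∈ Lv F Ω γ N₁ 1 := by
    intro i
    by_cases hi : i ∈ Finset.range (P.natDegree + 1)
    · exact Lv_mono F Ω γ (n i) N₁ ((Finset.dvd_prod_of_mem n hi).trans (Dvd.intro_left _ rfl))
        (hcn i)
    · rw [Polynomial.coeff_eq_zero_of_natDegree_lt]
      · exact zero_mem _
      · rw [Finset.mem_range] at hi
        omega
  have hX1 : ∀ σ : Ω ≃ₐ[F] Ω, (∀ z ∈ Lv F Ω γ N₁ 1, σ z = z) → σ β ∈ X := by
    intro σ hσ
    have h3 : P.map (σ : Ω →+* Ω) = P := by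
      ext i
      rw [Polynomial.coeff_map]
      exact hσ _ (hcL i)
    have h4 : P.eval β = 0 := by
      rw [hP, Polynomial.eval_prod]
      exact Finset.prod_eq_zero hβX (by simp)
    have h5 : P.eval (σ β) = 0 := by
      have h6 := Polynomial.eval₂_at_apply (p := P) (σ : Ω →+* Ω) β
      rw [← Polynomial.eval_map, h3, h4, map_zero] at h6
      exact h6
    rw [hP, Polynomial.eval_prod, Finset.prod_eq_zero_iff] at h5
    obtain ⟨x, hx, h7⟩ := h5
    rw [Polynomial.eval_sub, Polynomial.eval_X, Polynomial.eval_C, sub_eq_zero] at h7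
    rw [h7]
    exact hx
  have hD : D ≤ X.card := by
    refine hmin N₁ X.card hN₁0 ⟨β, hβ, ⟨X, le_rfl, hX1⟩, ?_, g, hg, rfl⟩
    intro σ hσ k hk hpow
    exact hR σ (fun z hz => hσ z (hLL hz)) k hk hpow
  have hXeq : X = s := by
    refine Finset.eq_of_subset_of_card_le (Finset.filter_subset _ _) (hs.trans hD)
  refine ⟨hLK, X, ?_, ?_, hXs⟩
  · rw [hXeq]
    exact hs
  · intro σ hσ
    rw [hXeq]
    exact hsC σ hσ

end Pool.Agent.H13.SX
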